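import Mathlib
import Pool.Agent.Q1.M4.Vis

set_option autoImplicit false
open Finset

/-! Linear combinations of the observables of several environments with the same coins: the
combination is bounded by the bound in the frozen environments times the probability of the event
outside of which the combination of the increments cancels configuration by configuration. -/

namespace Pool.Agent.Q1

open Pool.Agent.H75.Perc Pool.Agent.H75.TwoArm Pool.Agent.H99.NC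

namespace Env

/-- The difference of a primitive in a box is the average of the frozen differences. -/
lemma Prim.diff_eq_Ec {X : Env} {a b c d : ℤ} {Hv Hf : ℤ × ℤ → ℂ}
    (hP : X.Prim a b c d Hv Hf) {H : Finset (ℤ × ℤ) → (ℤ × ℤ → ℂ) × (ℤ × ℤ → ℂ)}
    (hH : ∀ ω1, (X.freeze (Bx a b c d) ω1).Prim a b c d (H ω1).1 (H ω1).2)
    {u v : ℤ × ℤ} (hu : inB a b c d u) (hv : inB a b c d v) :
    Hv u - Hv v = Ec (fun _ => (1 / 2 : ℂ)) (X.E \ Bx a b c d)
      (fun ω1 => (H ω1).1 u - (H ω1).1 v) := by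
  set E1 := X.E \ Bx a b c d with hE1
  have hconst : ∀ w w', inB a b c d w → inB a b c d w' →
      Hv w - Ec (fun _ => (1 / 2 : ℂ)) E1 (fun ω1 => (H ω1).1 w) =
      Hv w' - Ec (fun _ => (1 / 2 : ℂ)) E1 (fun ω1 => (H ω1).1 w') := by
    intro w w' hw hw'
    refine const_on_rect (Δ := fun w => Hv w - Ec (fun _ => (1 / 2 : ℂ)) E1
      (fun ω1 => (H ω1).1 w)) ?_ ?_ hw hw'
    · intro x y h1 h2 h3 h4
      have k1 := hP.hor h1 h2 h3 h4
      have k2 : Ec (fun _ => (1 / 2 : ℂ)) E1 (fun ω1 => (H ω1).1 (x + 1, y)) -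
          Ec (fun _ => (1 / 2 : ℂ)) E1 (fun ω1 => (H ω1).1 (x, y)) =
          X.inc (2 * x + 2, 2 * y) - X.inc (2 * x + 1, 2 * y) := by
        rw [← Ec_sub, X.inc_freeze (Bx a b c d), X.inc_freeze (Bx a b c d), ← Ec_sub]
        exact Ec_congr fun ω1 _ => (hH ω1).hor h1 h2 h3 h4
      linear_combination k1 - k2
    · intro x y h1 h2 h3 h4
      have k1 := hP.ver h1 h2 h3 h4
      have k2 : Ec (fun _ => (1 / 2 : ℂ)) E1 (fun ω1 => (H ω1).1 (x, y + 1)) -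
          Ec (fun _ => (1 / 2 : ℂ)) E1 (fun ω1 => (H ω1).1 (x, y)) =
          X.inc (2 * x, 2 * y + 2) - X.inc (2 * x, 2 * y + 1) := by
        rw [← Ec_sub, X.inc_freeze (Bx a b c d), X.inc_freeze (Bx a b c d), ← Ec_sub]
        exact Ec_congr fun ω1 _ => (hH ω1).ver h1 h2 h3 h4
      linear_combination k1 - k2
  rw [Ec_sub]
  linear_combination hconst u v hu hv

/-- If the combination of the increments vanishes configuration by configuration outside a local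
event, then the combination of the frozen increments vanishes outside the event. -/
lemma comb_freeze_zero {ι : Type*} {s : Finset ι} {E : Finset (ℤ × ℤ)} {X : ι → Env}
    (hE : ∀ i ∈ s, (X i).E = E) {a b c d : ℤ} {al : ι → ℂ} {Ev : Finset (ℤ × ℤ) → Prop}
    (hloc : ∀ ω ω', ω ⊆ E → ω' ⊆ E → (∀ e, e ∉ Bx a b c d → (e ∈ ω' ↔ e ∈ ω)) →
      (Ev ω' ↔ Ev ω)) {z : ℤ × ℤ}
    (hz : ∀ ω ⊆ E, ¬ Ev ω → ∑ i ∈ s, al i * (X i).incO ω z = 0) {ω1 : Finset (ℤ × ℤ)}
    (hω1 : ω1 ⊆ E \ Bx a b c d) (h : ¬ Ev ω1) :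
    ∑ i ∈ s, al i * ((X i).freeze (Bx a b c d) ω1).inc z = 0 := by
  have hω1E : ω1 ⊆ E := hω1.trans sdiff_subset
  have h1 : ∀ i ∈ s, al i * ((X i).freeze (Bx a b c d) ω1).inc z =
      Ec (fun _ => (1 / 2 : ℂ)) (E ∩ Bx a b c d) (fun ω' => al i *
        (X i).incO (ω' ∪ (ω1 ∩ (E \ Bx a b c d))) z) := by
    intro i hi
    rw [inc_eq, freeze_E, hE i hi, Ec_smul]
    congr 1
    refine Ec_congr fun ω' hω' => ?_
    rw [← hE i hi] at hω'
    rw [freeze_incO hω', hE i hi]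
  rw [sum_congr rfl h1, ← Ec_sum, Ec_congr (G := fun _ => 0), Ec_const]
  intro ω' hω'
  have hsub : ω' ∪ (ω1 ∩ (E \ Bx a b c d)) ⊆ E := by
    intro x hx
    rcases mem_union.1 hx with h | h
    · exact (mem_inter.1 (hω' h)).1
    · exact (mem_sdiff.1 (mem_inter.1 h).2).1
  refine hz _ hsub fun hEv => h ?_
  refine (hloc _ _ hω1E hsub ?_).1 hEv
  intro e he
  rw [mem_union, mem_inter, mem_sdiff]
  constructor
  · rintro (h1 | h1)
    · exact absurd (mem_inter.1 (hω' h1)).2 he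
    · exact h1.1
  · intro h1
    exact Or.inr ⟨h1, hω1E h1, he⟩

/-- **Conditioning for combinations, vertex version.** -/
theorem comb_diff {ι : Type*} (s : Finset ι) {E : Finset (ℤ × ℤ)} {X : ι → Env}
    (hE : ∀ i ∈ s, (X i).E = E) {a b c d : ℤ} (hB : Bx a b c d ⊆ E) {Hv Hf : ι → ℤ × ℤ → ℂ}
    (hP : ∀ i ∈ s, (X i).Prim a b c d (Hv i) (Hf i)) (al : ι → ℂ) {B : ℝ} {u v : ℤ × ℤ}
    (hu : inB a b c d u) (hv : inB a b c d v)
    (hfr : ∀ i ∈ s, ∀ ω1 ⊆ E \ Bx a b c d, ∀ Hv' Hf',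
      ((X i).freeze (Bx a b c d) ω1).Prim a b c d Hv' Hf' → ‖Hv' u - Hv' v‖ ≤ B)
    (Ev : Finset (ℤ × ℤ) → Prop)
    (hloc : ∀ ω ω', ω ⊆ E → ω' ⊆ E → (∀ e, e ∉ Bx a b c d → (e ∈ ω' ↔ e ∈ ω)) →
      (Ev ω' ↔ Ev ω))
    (hz : ∀ ω ⊆ E, ¬ Ev ω → ∀ z, inB a b c d (vx z) → ∑ i ∈ s, al i * (X i).incO ω z = 0) :
    ‖∑ i ∈ s, al i * (Hv i u - Hv i v)‖ ≤
      (∑ i ∈ s, ‖al i‖) * B * PrP (fun _ => 1 / 2) E Ev := by
  classical
  have hexP : ∀ i, ∀ ω1, ∃ H : (ℤ × ℤ → ℂ) × (ℤ × ℤ → ℂ),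
      i ∈ s → ((X i).freeze (Bx a b c d) ω1).Prim a b c d H.1 H.2 := by
    intro i ω1
    by_cases hi : i ∈ s
    · obtain ⟨Hv', Hf', h⟩ := ((X i).freeze (Bx a b c d) ω1).exists_prim (a := a) (b := b)
        (c := c) (d := d) (by
          rw [freeze_E, hE i hi]; exact subset_inter hB (Subset.refl _))
      exact ⟨(Hv', Hf'), fun _ => h⟩
    · exact ⟨(fun _ => 0, fun _ => 0), fun h => absurd h hi⟩
  choose H hH using hexP
  set E1 := E \ Bx a b c d with hE1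
  have hdiff : ∑ i ∈ s, al i * (Hv i u - Hv i v) =
      Ec (fun _ => (1 / 2 : ℂ)) E1
        (fun ω1 => ∑ i ∈ s, al i * ((H i ω1).1 u - (H i ω1).1 v)) := by
    rw [Ec_sum]
    refine sum_congr rfl fun i hi => ?_
    rw [Ec_smul, (hP i hi).diff_eq_Ec (fun ω1 => hH i ω1 hi) hu hv, hE i hi]
  -- the combination of the frozen primitives is constant outside the event
  have hb : ∀ ω1, ω1 ⊆ E1 → ‖∑ i ∈ s, al i * ((H i ω1).1 u - (H i ω1).1 v)‖ ≤
      ((∑ i ∈ s, ‖al i‖) * B) * ind (Ev ω1) := by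
    intro ω1 hω1
    by_cases hV : Ev ω1
    · rw [ind_true hV, mul_one]
      refine (norm_sum_le _ _).trans ?_
      rw [sum_mul]
      refine sum_le_sum fun i hi => ?_
      rw [norm_mul]
      exact mul_le_mul_of_nonneg_left (hfr i hi ω1 hω1 _ _ (hH i ω1 hi)) (norm_nonneg _)
    · rw [ind_false hV, mul_zero]
      have hcz : ∀ z, inB a b c d (vx z) →
          ∑ i ∈ s, al i * ((X i).freeze (Bx a b c d) ω1).inc z = 0 := fun z hz' =>
        comb_freeze_zero hE hloc (fun ω hω hn => hz ω hω hn z hz') hω1 hV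
      have hc : (∑ i ∈ s, al i * (H i ω1).1 u) = ∑ i ∈ s, al i * (H i ω1).1 v := by
        refine const_on_rect (Δ := fun w => ∑ i ∈ s, al i * (H i ω1).1 w) ?_ ?_ hu hv
        · intro x y h1 h2 h3 h4
          have k1 := hcz (2 * x + 2, 2 * y) (by unfold inB vx; simp only; omega)
          have k2 := hcz (2 * x + 1, 2 * y) (by unfold inB vx; simp only; omega)
          have k3 : ∑ i ∈ s, al i * ((H i ω1).1 (x + 1, y) - (H i ω1).1 (x, y)) =
              ∑ i ∈ s, al i * (((X i).freeze (Bx a b c d) ω1).inc (2 * x + 2, 2 * y) -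
                ((X i).freeze (Bx a b c d) ω1).inc (2 * x + 1, 2 * y)) :=
            sum_congr rfl fun i hi => by rw [(hH i ω1 hi).hor h1 h2 h3 h4]
          simp only [mul_sub, sum_sub_distrib] at k3
          linear_combination k3 + k1 - k2
        · intro x y h1 h2 h3 h4
          have k1 := hcz (2 * x, 2 * y + 2) (by unfold inB vx; simp only; omega)
          have k2 := hcz (2 * x, 2 * y + 1) (by unfold inB vx; simp only; omega)
          have k3 : ∑ i ∈ s, al i * ((H i ω1).1 (x, y + 1) - (H i ω1).1 (x, y)) =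
              ∑ i ∈ s, al i * (((X i).freeze (Bx a b c d) ω1).inc (2 * x, 2 * y + 2) -
                ((X i).freeze (Bx a b c d) ω1).inc (2 * x, 2 * y + 1)) :=
            sum_congr rfl fun i hi => by rw [(hH i ω1 hi).ver h1 h2 h3 h4]
          simp only [mul_sub, sum_sub_distrib] at k3
          linear_combination k3 + k1 - k2
      have : ∑ i ∈ s, al i * ((H i ω1).1 u - (H i ω1).1 v) = 0 := by
        simp only [mul_sub, sum_sub_distrib]
        rw [hc, sub_self]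
      rw [this, norm_zero]
  rw [hdiff]
  refine (Ec_half_norm hb).trans ?_
  rw [Ex_smul]
  have hB0 : PrP (fun _ => (1 / 2 : ℝ)) E1 Ev = PrP (fun _ => (1 / 2 : ℝ)) E Ev := by
    refine (PrP_local sdiff_subset ?_).symm
    intro ω hω
    refine hloc _ _ ?_ hω ?_
    · exact inter_subset_left.trans hω
    · intro e he
      rw [mem_inter, mem_sdiff]
      constructor
      · intro h
        exact ⟨h, hω h, he⟩
      · exact fun h => h.1
  have : Ex (fun _ => (1 / 2 : ℝ)) E1 (fun ω => ind (Ev ω)) =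
      PrP (fun _ => (1 / 2 : ℝ)) E1 Ev := rfl
  rw [this, hB0]

/-- **Combinations, edge version.** -/
theorem comb_edge {ι : Type*} (s : Finset ι) {E : Finset (ℤ × ℤ)} {X : ι → Env}
    (hE : ∀ i ∈ s, (X i).E = E) (al : ι → ℂ) (Ev : Finset (ℤ × ℤ) → Prop) {z : ℤ × ℤ}
    (hz : ∀ ω ⊆ E, ¬ Ev ω → ∑ i ∈ s, al i * (X i).incO ω z = 0) :
    ‖∑ i ∈ s, al i * (X i).inc z‖ ≤ (∑ i ∈ s, ‖al i‖) * PrP (fun _ => 1 / 2) E Ev := by
  classical
  have h1 : ∑ i ∈ s, al i * (X i).inc z =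
      Ec (fun _ => (1 / 2 : ℂ)) E (fun ω => ∑ i ∈ s, al i * (X i).incO ω z) := by
    rw [Ec_sum]
    refine sum_congr rfl fun i hi => ?_
    rw [Ec_smul, inc_eq, hE i hi]
  rw [h1]
  have hb : ∀ ω, ω ⊆ E → ‖∑ i ∈ s, al i * (X i).incO ω z‖ ≤ (∑ i ∈ s, ‖al i‖) * ind (Ev ω) := by
    intro ω hω
    by_cases hV : Ev ω
    · rw [ind_true hV, mul_one]
      refine (norm_sum_le _ _).trans (sum_le_sum fun i hi => ?_)
      rw [norm_mul]
      refine (mul_le_mul_of_nonneg_left (incO_norm (by rw [hE i hi]; exact hω) z)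
        (norm_nonneg _)).trans ?_
      rw [mul_one]
    · rw [ind_false hV, mul_zero, hz ω hω hV, norm_zero]
  refine (Ec_half_norm hb).trans ?_
  rw [Ex_smul]
  exact le_of_eq rfl

/-- The vertex version for three environments. -/
theorem comb_diff3 {E : Finset (ℤ × ℤ)} {X : Fin 3 → Env}
    (hE : ∀ i, (X i).E = E) {a b c d : ℤ} (hB : Bx a b c d ⊆ E) {Hv Hf : Fin 3 → ℤ × ℤ → ℂ}
    (hP : ∀ i, (X i).Prim a b c d (Hv i) (Hf i)) (al : Fin 3 → ℂ) {B : ℝ} {u v : ℤ × ℤ}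
    (hu : inB a b c d u) (hv : inB a b c d v)
    (hfr : ∀ i, ∀ ω1 ⊆ E \ Bx a b c d, ∀ Hv' Hf',
      ((X i).freeze (Bx a b c d) ω1).Prim a b c d Hv' Hf' → ‖Hv' u - Hv' v‖ ≤ B)
    (Ev : Finset (ℤ × ℤ) → Prop)
    (hloc : ∀ ω ω', ω ⊆ E → ω' ⊆ E → (∀ e, e ∉ Bx a b c d → (e ∈ ω' ↔ e ∈ ω)) →
      (Ev ω' ↔ Ev ω))
    (hz : ∀ ω ⊆ E, ¬ Ev ω → ∀ z, inB a b c d (vx z) → ∑ i, al i * (X i).incO ω z = 0) :
    ‖∑ i, al i * (Hv i u - Hv i v)‖ ≤ (∑ i, ‖al i‖) * B * PrP (fun _ => 1 / 2) E Ev :=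
  comb_diff univ (fun i _ => hE i) hB (fun i _ => hP i) al hu hv (fun i _ => hfr i) Ev hloc hz

/-- The edge version for three environments. -/
theorem comb_edge3 {E : Finset (ℤ × ℤ)} {X : Fin 3 → Env}
    (hE : ∀ i, (X i).E = E) (al : Fin 3 → ℂ) (Ev : Finset (ℤ × ℤ) → Prop) {z : ℤ × ℤ}
    (hz : ∀ ω ⊆ E, ¬ Ev ω → ∑ i, al i * (X i).incO ω z = 0) :
    ‖∑ i, al i * (X i).inc z‖ ≤ (∑ i, ‖al i‖) * PrP (fun _ => 1 / 2) E Ev :=
  comb_edge univ (fun i _ => hE i) al Ev hz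

end Env

end Pool.Agent.Q1
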