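import Mathlib
import Pool.Agent.H33.Sp.NatId
import Pool.Agent.H14.Win.NatX
import Pool.Agent.H5.FM.WinCo

set_option autoImplicit false
open Finset

/-! # The natural labels of a shape and the natural window

`notch_of` : a tile of the window `winOf F n` which is not a tile of the shape is next to a corner of the
polyomino. `ES_iff`, `WS_iff` : the labels `ES`, `WS` of the shape and the labels `EO`, `WO` of the natural window
`XN O false ∅` agree away from these tiles. `natA_ES` : the labels of the shape are natural outside of the small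
tiles. `oF` : the outsides of the three environments. -/

namespace Pool.Agent.H54.FM

open Pool.Agent.H75.Perc hiding ph cc EE ES mem_ES
open Pool.Agent.H75.TwoArm Pool.Agent.Q1 Pool.Agent.H33.Q1
open Pool.Agent.H69.Q1
open Pool.Agent.H21.FM (Shape)
open Pool.Agent.H5.FM
open Pool.Agent.H46.Sp (Win)
open Pool.Agent.H74.Win hiding mul_gap
open Pool.Agent.H33.Sp
open Pool.Agent.H44.FM.WG (Gr)
open Pool.Agent.H14.Win (NatA natA_of)

section

variable {S : Shape} {y0 y1 : ℤ} {a b : ℤ → ℤ} {yP yQ : ℤ} (F : RowF S.P.Q y0 y1 a b yP yQ)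
  {n : ℕ} (hn : 1 ≤ n) {x y : ℤ}

/-- next to a corner of the polyomino, in the window -/
def Nt (D : Win) (n H : ℤ) (A B : ℤ → ℤ) (x y : ℤ) : Prop :=
  InP D false x y ∧ ∃ X K, (CorL H A X K ∨ CorR H B X K) ∧ x ≤ n * X + 1 ∧ n * X ≤ x + 1 ∧
    y ≤ n * K + 1 ∧ n * K ≤ y + 1

/-- the tiles of the window which are not tiles of the shape are notches -/
theorem notch_of (h : InP (winOf F n hn) false x y) (h' : lt (x, y + 2 * n * y0) ∉ TL S.P.Q (2 * n)) :
    Nt (winOf F n hn) (2 * n) (y1 - y0) (fun Y => a (Y + y0)) (fun Y => b (Y + y0)) x y := by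
  refine ⟨h, ?_⟩
  have hN : (0 : ℤ) < 2 * n := by omega
  obtain ⟨h0, h1, h2, h3⟩ := h
  rw [sh_false, add_zero] at h0 h1 h2 h3
  have hP0 := (cwOf F).P0
  have hP1 := (cwOf F).P1
  have hQ0 := (cwOf F).Q0
  have hQ1 := (cwOf F).Q1
  have frH : (cwOf F).H = y1 - y0 := rfl
  have frA : ∀ Y, (cwOf F).A Y = a (Y + y0) := fun _ => rfl
  have frB : ∀ Y, (cwOf F).B Y = b (Y + y0) := fun _ => rfl
  have e := Int.mul_ediv_add_emod y (2 * (n : ℤ))
  have hq0 : 0 ≤ y / (2 * n) := Int.ediv_nonneg h0 hN.le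
  have hq1 : y / (2 * n) < y1 - y0 := by
    rw [Int.ediv_lt_iff_lt_mul hN, mul_comm]
    exact h1
  rcases win_tl F hn h0 h1 h2 h3 with h4 | ⟨h4, h5⟩ | ⟨h4, h5⟩
  · exact absurd h4 h'
  · rcases CW.dA_one h5 with ⟨g1, g2, g3, -⟩ | ⟨g1, g2, g3, -⟩
    · refine ⟨a (y / (2 * n) + y0), y / (2 * n) + 1, Or.inl ⟨by omega, by omega, Or.inr ⟨?_, by omega⟩, ?_⟩, ?_⟩
      · rw [add_sub_cancel_right]
      · intro _ _ h6
        rw [frA, frA] at g3
        simp only [add_sub_cancel_right] at h6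
        omega
      · rw [mul_add, mul_one]
        omega
    · refine ⟨a (y / (2 * n) + y0), y / (2 * n), Or.inl ⟨by omega, by omega, Or.inl ⟨rfl, by omega⟩, ?_⟩, ?_⟩
      · intro _ _ h6
        rw [frA, frA] at g3
        simp only at h6
        omega
      · omega
  · rcases CW.dB_one h5 with ⟨g1, g2, g3, -⟩ | ⟨g1, g2, g3, -⟩
    · refine ⟨b (y / (2 * n) + y0), y / (2 * n) + 1, Or.inr ⟨by omega, by omega, Or.inr ⟨?_, by omega⟩, ?_⟩, ?_⟩
      · rw [add_sub_cancel_right]
      · intro _ _ h6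
        rw [frB, frB] at g3
        simp only [add_sub_cancel_right] at h6
        omega
      · rw [mul_add, mul_one]
        omega
    · refine ⟨b (y / (2 * n) + y0), y / (2 * n), Or.inr ⟨by omega, by omega, Or.inl ⟨rfl, by omega⟩, ?_⟩, ?_⟩
      · intro _ _ h6
        rw [frB, frB] at g3
        simp only at h6
        omega
      · omega

variable {F hn}

lemma mem_EO0 {D : Win} {p : Bool} : lt (x, y) ∈ EO D p (gA D p ∅) ↔ InP D p x y := by
  rw [mem_EO]
  refine ⟨fun h => h.resolve_right ?_, Or.inl⟩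
  rintro ⟨k, -, hk, -⟩
  exact absurd hk (Finset.notMem_empty _)

/-- **Random labels** -/
theorem ES_iff (h : ¬ Nt (winOf F n hn) (2 * n) (y1 - y0) (fun Y => a (Y + y0)) (fun Y => b (Y + y0)) x y) :
    lt (x, y) ∈ ES F n hn ↔ lt (x, y) ∈ EO (winOf F n hn) false (gA (winOf F n hn) false ∅) := by
  rw [mem_EO0, mem_ES]
  refine ⟨tl_inP, fun h1 => ?_⟩
  by_contra h2
  exact h (notch_of F hn h1 h2)

/-- **Open labels** -/
theorem WS_iff (h : ¬ Nt (winOf F n hn) (2 * n) (y1 - y0) (fun Y => a (Y + y0)) (fun Y => b (Y + y0)) x y) :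
    lt (x, y) ∈ WS F n hn ↔
      lt (x, y) ∈ WO (winOf F n hn) false (gA (winOf F n hn) false ∅) (Snat (winOf F n hn) false) := by
  rw [mem_WOn, mem_WS, ← mem_ES (F := F) (hn := hn), ES_iff h]
  by_cases h1 : InP (winOf F n hn) false x y
  · rw [mem_EO0]
    tauto
  · have e : nac (cwOf F) (2 * n) x y = natc (winOf F n hn) false x y := nac_out h1
    rw [e]

/-- **The labels of the shape are natural outside of the small tiles.** -/
theorem natA_ES (h30 : 30 ≤ n) : NatA (winOf F n hn) (2 * n) (y1 - y0) (fun Y => a (Y + y0))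
    (fun Y => b (Y + y0)) false ∅ (ES F n hn) (WS F n hn) := by
  have sm : ∀ {x y : ℤ}, ¬ Sm (2 * n) (y1 - y0) (fun Y => a (Y + y0)) (fun Y => b (Y + y0)) x y →
      ¬ Nt (winOf F n hn) (2 * n) (y1 - y0) (fun Y => a (Y + y0)) (fun Y => b (Y + y0)) x y := by
    rintro x y h ⟨-, X, K, hc, h1, h2, h3, h4⟩
    exact h ⟨X, K, hc, by omega, by omega, by omega, by omega⟩
  have zn : ∀ {x y : ℤ}, InP (winOf F n hn) false x y → Zn (winOf F n hn) x y := by
    intro x y h
    have := h.box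
    unfold Zn
    omega
  refine natA_of (winOf_coarseC F hn (by omega)) (by omega) (fun x y h _ _ => ES_iff (sm h))
    (fun x y h1 h2 => h1 (zn (tl_inP (mem_ES.1 h2)))) (fun x y h _ _ _ => WS_iff (sm h))
    (fun x y h1 _ => WS_iff fun h2 => h1 (zn h2.1))

end

/-! ### The outsides of the three environments -/

section out

variable {S : Shape} {y0 y1 : ℤ} {a b : ℤ → ℤ} {yP yQ : ℤ} (F : RowF S.P.Q y0 y1 a b yP yQ)
  (n : ℕ) (h2 : 2 ≤ n) (L : ℤ) (hL : 2 ≤ L)

/-- the outside of the environment `i` (`0` : `12`, root at the third mark, `1` : `23`, type X, `2` : `34`, root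
at the first mark) -/
noncomputable def oF (i : Fin 3) : OutB (winOf F n (le2 h2)) :=
  if i = 0 then oY3 F n h2 L hL else if i = 1 then oX F n h2 L hL else oY1 F n h2 L hL

lemma oF_cases (i : Fin 3) : oF F n h2 L hL i = oX F n h2 L hL ∨ oF F n h2 L hL i = oY1 F n h2 L hL ∨
    oF F n h2 L hL i = oY3 F n h2 L hL := by
  unfold oF
  split_ifs
  · exact Or.inr (Or.inr rfl)
  · exact Or.inl rfl
  · exact Or.inr (Or.inl rfl)

end out

end Pool.Agent.H54.FM
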