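import Mathlib
import Pool.Agent.H54.FM.TriA
import Pool.Agent.H14.Win.Lnk
import Pool.Agent.H44.FM.Wi8
import Pool.Agent.H74.R45.SPot
import Pool.Agent.Q1.M6c.APMain

set_option autoImplicit false
open Finset Filter Topology

/-! # The three environments of a shape are close to the natural windows

`scale_pot` : at one scale the primitives of the three environments are, up to a unit, potentials of the
environments of the window with the labels of the shape. `triW` : `TriW`, the last line of `ShapeBr`. -/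

namespace Pool.Agent.H54.FM

open Pool.Agent.H75.Perc hiding ph cc EE ES mem_ES
open Pool.Agent.H75.TwoArm Pool.Agent.Q1 Pool.Agent.H33.Q1
open Pool.Agent.H69.Q1
open Pool.Agent.Q1.M4 (lat Om Reg isOpen_Om isPreconnected_Om)
open Pool.Agent.H21.FM (Shape GPrim Tri3)
open Pool.Agent.H5.FM hiding mul_gap
open Pool.Agent.H46.Sp (Win)
open Pool.Agent.H74.Win hiding mul_gap
open Pool.Agent.H33.Sp
open Pool.Agent.H74.R45 (Pot RC RC_he RC_ve gprim_edge sg sg_congr RT mem_RT lt_mem_RT)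
open Pool.Agent.H44.FM.WG (Gr SmR RL)
open Pool.Agent.H44.FM.Wi
open Pool.Agent.Q1.M6e (Lk)
open Pool.Agent.Q1.M6c (ap_planeK)
open Pool.Agent.H87.FM (gx gx_mono)
open Pool.Agent.H14.Win (NatA natA_XN PotT potT_of_potN disp_eps rootC_of RootC)
open Pool.Agent.H20.Sp (OutOK)

section scale

variable {S : Shape} {y0 y1 : ℤ} {a b : ℤ → ℤ} {yP yQ : ℤ} {F : RowF S.P.Q y0 y1 a b yP yQ}
  {n : ℕ} {h2 : 2 ≤ n} {L : ℤ} {hL : 2 ≤ L}

lemma shc_he (n : ℕ) (y0 x y : ℤ) : shc (vs n y0) (Pool.Agent.H74.R45.he (x, y)) =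
    Pool.Agent.H74.R45.he (x, y + 2 * n * y0) := by
  unfold shc vs Pool.Agent.H74.R45.he
  refine Prod.ext ?_ ?_ <;> simp only <;> ring

lemma shc_ve (n : ℕ) (y0 x y : ℤ) : shc (vs n y0) (Pool.Agent.H74.R45.ve (x, y)) =
    Pool.Agent.H74.R45.ve (x, y + 2 * n * y0) := by
  unfold shc vs Pool.Agent.H74.R45.ve
  refine Prod.ext ?_ ?_ <;> simp only <;> ring

/-- the primitive of the environment of the shape is a potential of the environment of the window -/
lemma pot_shape {X : Env} (hE : X.E = TL S.P.Q (2 * n)) {O : OutB (winOf F n (le2 h2))} {κ : ℤ}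
    (hκ : ∀ c, (lab c ∈ ES F n (le2 h2) ∨ plab c ∈ ES F n (le2 h2)) →
      (XS F n h2 O).inc c = ph κ * X.inc (shc (vs n y0) c)) {Ht : ℤ × ℤ → ℂ} (hG : GPrim X Ht) :
    PotT (fun x y => lt (x, y) ∈ ES F n (le2 h2)) (fun c => (XS F n h2 O).inc c)
      (fun x y => ph κ * Ht (x, y + 2 * n * y0)) := by
  intro x0 x1 z0 z1 hx hz hT
  have hR : RT (x0 - 1) (x1 + 1) (z0 - 1) (z1 + 1) ⊆ ES F n (le2 h2) := by
    intro e he
    obtain ⟨x, y, rfl, e1, e2, e3, e4⟩ := mem_RT.1 he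
    exact hT x y (by omega) (by omega) (by omega) (by omega)
  have key : ∀ {c : ℤ × ℤ}, RC (RT (x0 - 1) (x1 + 1) (z0 - 1) (z1 + 1)) c →
      RC (ES F n (le2 h2)) c ∧ RC X.E (shc (vs n y0) c) := by
    intro c hc
    have h1 : RC (ES F n (le2 h2)) c := RC.mono' hR hc
    refine ⟨h1, ?_⟩
    rw [hE]
    exact mem_EE_shc (h2 := h2) h1
  refine ⟨fun x y e1 e2 e3 e4 => ?_, fun x y e1 e2 e3 e4 => ?_⟩
  · obtain ⟨k1, k2⟩ := key (RC_he (x0 := x0 - 1) (x1 := x1 + 1) (y0 := z0 - 1) (y1 := z1 + 1)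
      (x := x) (y := y) (by omega) (by omega) (by omega) (by omega) (by omega))
    rw [shc_he] at k2
    have h3 := (gprim_edge hG).1 k2
    rw [hκ _ k1, shc_he]
    rw [sg_congr (m := x + (y + 2 * n * y0)) (n := x + y) (by
      rw [show x + (y + 2 * (n : ℤ) * y0) = x + y + 2 * (n * y0) by ring]; omega)] at h3
    linear_combination ph κ * h3
  · obtain ⟨k1, k2⟩ := key (RC_ve (x0 := x0 - 1) (x1 := x1 + 1) (y0 := z0 - 1) (y1 := z1 + 1)
      (x := x) (y := y) (by omega) (by omega) (by omega) (by omega) (by omega))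
    rw [shc_ve] at k2
    have h3 := (gprim_edge hG).2 k2
    rw [hκ _ k1, shc_ve]
    rw [sg_congr (m := x + (y + 2 * n * y0)) (n := x + y) (by
      rw [show x + (y + 2 * (n : ℤ) * y0) = x + y + 2 * (n * y0) by ring]; omega)] at h3
    rw [show y + 1 + 2 * (n : ℤ) * y0 = y + 2 * n * y0 + 1 by ring]
    linear_combination ph κ * h3

variable (F L hL) in
/-- **The three environments at one scale.** -/
theorem scale_pot (h4 : 4 ≤ n) {X : Fin 3 → Env} {H : Fin 3 → ℤ × ℤ → ℂ} (T : Tri3 S n X H)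
    (i : Fin 3) : ∃ κ : ℂ, ‖κ‖ = 1 ∧ PotT (fun x y => lt (x, y) ∈ ES F n (le2 h2))
      (fun c => (XS F n h2 (oF F n h2 L hL i)).inc c) (fun x y => κ * H i (x, y + 2 * n * y0)) := by
  match i with
  | 0 =>
    obtain ⟨κ, hκ⟩ := nat_W12 (F := F) (h2 := h2) (L := L) (hL := hL) h4 T.e12
    exact ⟨ph κ, ph_norm κ, pot_shape (T.planeK 0).2.1 hκ (T.prim 0)⟩
  | 1 =>
    obtain ⟨κ, hκ⟩ := nat_W0 (F := F) (h2 := h2) (L := L) (hL := hL) h4 T.e23
    exact ⟨ph κ, ph_norm κ, pot_shape (T.planeK 1).2.1 hκ (T.prim 1)⟩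
  | 2 =>
    obtain ⟨κ, hκ⟩ := nat_W34 (F := F) (h2 := h2) (L := L) (hL := hL) h4 T.e34
    exact ⟨ph κ, ph_norm κ, pot_shape (T.planeK 2).2.1 hκ (T.prim 2)⟩

/-- linked points of the domain, tiles of the shape in the frame of the window -/
lemma lk_ES (hn : 1 ≤ n) {η : ℝ} {u v : ℤ × ℤ} (h : RL (Om S.P.Q gx gx) η (lat u / (((2 * n : ℕ) : ℝ) : ℂ))
    (lat v / (((2 * n : ℕ) : ℝ) : ℂ))) : Lk (fun x y => lt (x, y) ∈ ES F n hn) (η * ((2 * n : ℕ) : ℝ))
      (wv false (2 * n * y0) u) (wv false (2 * n * y0) v) := by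
  have h1 := lk_of_RL (by omega) h
  have h3 := Lk.shift h1 (2 * n * y0)
  have e : ∀ w : ℤ × ℤ, ((w.1, w.2 - 2 * n * y0) : ℤ × ℤ) = wv false (2 * n * y0) w := by
    intro w; unfold wv; rw [sh_false, sub_zero]
  rw [e, e] at h3
  refine Pool.Agent.Q1.M6e.Lk.imp h3 fun x y hxy => ?_
  rw [mem_ES]
  push_cast at hxy
  exact hxy

end scale

section main

variable {S : Shape} {y0 y1 : ℤ} {a b : ℤ → ℤ} {yP yQ : ℤ} (F : RowF S.P.Q y0 y1 a b yP yQ)

/-- the outsides of the environment `i` -/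
noncomputable def oT (i : Fin 3) (j : ℕ) : OutB (DW F j) := oF F (nj j) (nj_two j) (nj j : ℤ) (nj_L j) i

/-- **The three environments of a shape are close to natural windows.** -/
theorem tri_of (i : Fin 3) (hO : ∀ᶠ j in atTop, OutOK (oT F i j) (j : ℤ)) (X : ℕ → Fin 3 → Env) (H : ℕ → Fin 3 → ℤ × ℤ → ℂ)
    (hX : ∀ᶠ h in atTop, Tri3 S h (X h) (H h)) : ∃ κ : ℕ → ℂ, (∀ n, ‖κ n‖ = 1) ∧
    SmR (fun j => ((2 * j : ℕ) : ℝ)) atTop (Om S.P.Q gx gx) (2 / 3)
      (fun j v => κ j * NW (DW F) (oT F i) (cW y0) false ∅ j v - H j i v) := by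
  classical
  have hsc : ∀ j : ℕ, ∃ κ : ℂ, ‖κ‖ = 1 ∧ (Tri3 S (nj j) (X j) (H j) →
      PotT (fun x y => lt (x, y) ∈ ES F (nj j) (le2 (nj_two j)))
        (fun c => (XS F (nj j) (nj_two j) (oT F i j)).inc c)
        (fun x y => κ * H j i (x, y + 2 * (nj j : ℕ) * y0))) := by
    intro j
    by_cases hT : Tri3 S (nj j) (X j) (H j)
    · obtain ⟨κ, h1, h3⟩ := scale_pot F (nj j : ℤ) (nj_L j) (h2 := nj_two j)
        (le_trans (by norm_num) (nj_ge j)) hT i
      exact ⟨κ, h1, fun _ => h3⟩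
    · exact ⟨1, norm_one, fun h => absurd h hT⟩
  choose κ hκ1 hκ2 using hsc
  have hκ0 : ∀ j, κ j ≠ 0 := fun j h => by
    have := hκ1 j
    rw [h, norm_zero] at this
    exact zero_ne_one this
  refine ⟨fun j => (κ j)⁻¹, fun j => by simp only [norm_inv, hκ1, inv_one], ?_⟩
  have hR : Tendsto (fun j : ℕ => ((2 * j : ℕ) : ℝ)) atTop atTop :=
    tendsto_natCast_atTop_atTop.comp (tendsto_atTop_mono (fun j => by simp only [id]; omega) tendsto_id)
  refine smR_of_lk hR (isOpen_Om _ _ _) (isPreconnected_Om gx_mono gx_mono S.P.good.conn)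
    fun η hη ε hε => ?_
  obtain ⟨n0, hD⟩ := disp_eps ap_planeK (y1 - y0) (fun Y => a (Y + y0)) (fun Y => b (Y + y0)) hη hε
  filter_upwards [hO, hX, eventually_ge_atTop 30, eventually_ge_atTop n0] with j h1 h3 h4 h5 u v huv
  have e := nj_eq h4
  have hC := coarse_DW F h4
  have hroot : RootC (1 / 8) ((2 * j : ℕ) : ℤ) (y1 - y0) (fun Y => a (Y + y0)) (fun Y => b (Y + y0))
      (oT F i j) := by
    refine rootC_of hC.toCoarse h1.root ?_
    have : (30 : ℝ) ≤ j := by exact_mod_cast h4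
    push_cast
    linarith
  have hT : Tri3 S (nj j) (X j) (H j) := by rw [e]; exact h3
  have hP := hκ2 j hT
  have e2 : ((2 * j : ℕ) : ℤ) = 2 * ((nj j : ℕ) : ℤ) := by rw [e]; push_cast; ring
  have nS : NatA (DW F j) ((2 * j : ℕ) : ℤ) (y1 - y0) (fun Y => a (Y + y0)) (fun Y => b (Y + y0)) false ∅
      (ES F (nj j) (le2 (nj_two j))) (WS F (nj j) (le2 (nj_two j))) := by
    rw [e2]; exact natA_ES (nj_ge j)
  have nX := natA_XN hC (by omega) false ∅
  have hlk := lk_ES (F := F) (n := nj j) (le2 (nj_two j)) (η := η) (u := u) (v := v) (by rw [e]; exact huv)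
  have key := hD (2 * j) (by omega) (DW F j) _ _ _ _ hC (oT F i j) hroot false ∅ _ _ _ _
    (EO_sub_EU.trans EU_sub) (WO_sub Snat_sub) (disj_O Snat_sub) ES_sub WS_sub ES_disj nX nS
    (fun x y => lt (x, y) ∈ ES F (nj j) (le2 (nj_two j)))
    (fun x y hxy => mem_EO0.2 (tl_inP (mem_ES.1 hxy))) (fun x y hxy => hxy)
    (HN (oT F i j) false ∅) _ ((potT_of_potN (potN_HN (oT F i j) false ∅)).mono
      fun x y hxy => tl_inP (mem_ES.1 hxy)) hP (wv false (2 * (nj j : ℕ) * y0) u)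
    (wv false (2 * (nj j : ℕ) * y0) v) (by
      have e3 : ((2 * j : ℕ) : ℝ) = ((2 * nj j : ℕ) : ℝ) := by rw [e]
      rw [e3]; exact hlk)
  have ew : ∀ w : ℤ × ℤ, (((wv false (2 * (nj j : ℕ) * y0) w).1,
      (wv false (2 * (nj j : ℕ) * y0) w).2 + 2 * (nj j : ℕ) * y0) : ℤ × ℤ) = w := by
    intro w
    unfold wv
    rw [sh_false]
    refine Prod.ext rfl ?_
    simp only
    ring
  simp only [ew] at key
  have hR1 : (1 : ℝ) ≤ ((2 * j : ℕ) : ℝ) := by
    have : 1 ≤ 2 * j := by omega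
    exact_mod_cast this
  have e5 : ((κ j)⁻¹ * NW (DW F) (oT F i) (cW y0) false ∅ j u - H j i u) -
      ((κ j)⁻¹ * NW (DW F) (oT F i) (cW y0) false ∅ j v - H j i v) =
      (κ j)⁻¹ * ((HN (oT F i j) false ∅ (wv false (2 * (nj j : ℕ) * y0) u).1
        (wv false (2 * (nj j : ℕ) * y0) u).2 - HN (oT F i j) false ∅ (wv false (2 * (nj j : ℕ) * y0) v).1
        (wv false (2 * (nj j : ℕ) * y0) v).2) - (κ j * H j i u - κ j * H j i v)) := by
    have h0 := hκ0 j
    unfold NW cW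
    field_simp
    ring
  rw [e5, norm_mul, norm_inv, hκ1, inv_one, one_mul]
  refine key.trans ?_
  refine mul_le_mul_of_nonneg_left ?_ hε.le
  exact Real.rpow_le_rpow_of_exponent_le hR1 (by norm_num)

lemma oT_typ (i : Fin 3) : OTyp F (oT F i) := by
  unfold OTyp oT oF
  by_cases h0 : i = 0
  · right; right; intro j; rw [if_pos h0]
  · by_cases h1 : i = 1
    · left; intro j; rw [if_neg h0, if_pos h1]
    · right; left; intro j; rw [if_neg h0, if_neg h1]

/-- **`TriW`** for the windows of a shape, if the outsides are good. -/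
theorem triW (hO : ∀ i, ∀ᶠ j in atTop, OutOK (oT F i j) (j : ℤ)) : TriW F := fun X H hX i => by
  obtain ⟨κ, h1, h3⟩ := tri_of F i (hO i) X H hX
  exact ⟨oT F i, κ, ⟨hO i, oT_typ F i⟩, h1, h3⟩

end main

end Pool.Agent.H54.FM
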