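import Mathlib
import Pool.Agent.H54.FM.Tri
import Pool.Agent.H13.Sp.CutW

set_option autoImplicit false
open Filter

/-! # `TriW` for the windows of a shape, without hypotheses -/

namespace Pool.Agent.H54.FM

open Pool.Agent.H21.FM (Shape)
open Pool.Agent.H5.FM (RowF)
open Pool.Agent.H44.FM.Wi
open Pool.Agent.H20.Sp (OutOK)
open Pool.Agent.H13.Sp (outOK_oX outOK_oY1 outOK_oY3)

variable {S : Shape} {y0 y1 : ℤ} {a b : ℤ → ℤ} {yP yQ : ℤ} (F : RowF S.P.Q y0 y1 a b yP yQ)

/-- the outsides are good -/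
theorem outOK_oT (i : Fin 3) (j : ℕ) : OutOK (oT F i j) (j : ℤ) := by
  have h : (j : ℤ) ≤ (nj j : ℤ) + 3 := by unfold nj; omega
  rcases oF_cases F (nj j) (nj_two j) (nj j) (nj_L j) i with e | e | e
  · unfold oT; rw [e]; exact outOK_oX h
  · unfold oT; rw [e]; exact outOK_oY1 h
  · unfold oT; rw [e]; exact outOK_oY3 h

/-- **The three environments of a shape are close to natural windows.** -/
theorem triW_F : TriW F := triW F fun i => Eventually.of_forall (outOK_oT F i)

end Pool.Agent.H54.FM
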